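import Mathlib
import Pool.Agent.Q49.TL.Bra

/-!
# Project TL, job TL-BRA: the theorem of Brauer on systems of forms
-/

set_option autoImplicit false

namespace Pool.Agent.Q199.TL

open MvPolynomial Pool.Agent.Q49.TL

section comp

variable {K : Type} [Field K]

/-- composition of linear maps -/
noncomputable def cmp {l m n : ℕ} (w : Fin l → Fin m → K) (v : Fin m → Fin n → K) :
    Fin l → Fin n → K :=
  fun a i => ∑ k, w a k * v k i

theorem res_cmp {l m n : ℕ} (w : Fin l → Fin m → K) (v : Fin m → Fin n → K)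
    (f : MvPolynomial (Fin n) K) : res (cmp w v) f = res w (res v f) := by
  unfold res
  rw [comp_aeval_apply]
  congr 2
  funext i
  simp only [cmp, map_sum, map_mul, algHom_C, aeval_X, Finset.mul_sum, Finset.sum_mul,
    algebraMap_eq]
  rw [Finset.sum_comm]
  refine Finset.sum_congr rfl fun k _ => Finset.sum_congr rfl fun a _ => ?_
  ring

theorem indep_cmp {l m n : ℕ} {w : Fin l → Fin m → K} {v : Fin m → Fin n → K}
    (hw : LinearIndependent K w) (hv : LinearIndependent K v) :
    LinearIndependent K (cmp w v) := by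
  have h1 := hw.map' (Fintype.linearCombination K v)
    (LinearMap.ker_eq_bot.2 hv.fintypeLinearCombination_injective)
  have e : cmp w v = (Fintype.linearCombination K v) ∘ w := by
    funext a i
    simp [cmp, Fintype.linearCombination_apply]
  rw [e]
  exact h1

theorem res_homog {m n : ℕ} (v : Fin m → Fin n → K) {f : MvPolynomial (Fin n) K} {d : ℕ}
    (hf : f.IsHomogeneous d) : (res v f).IsHomogeneous d := by
  have h1 : ∀ i, (∑ k, C (v k i) * X k : MvPolynomial (Fin m) K).IsHomogeneous 1 := by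
    intro i
    apply IsHomogeneous.sum
    intro k _
    have := (isHomogeneous_C (Fin m) (v k i)).mul (isHomogeneous_X K k)
    simpa using this
  have h2 := hf.aeval _ h1
  rw [one_mul] at h2
  exact h2

theorem eval_comb {m n : ℕ} (v : Fin m → Fin n → K) (c : Fin m → K)
    (f : MvPolynomial (Fin n) K) : eval (fun i => ∑ k, c k * v k i) f = eval c (res v f) := by
  unfold res
  rw [← coe_aeval_eq_eval, ← coe_aeval_eq_eval]
  simp only [RingHom.coe_coe]
  rw [comp_aeval_apply]
  congr 2
  funext i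
  simp only [map_sum, map_mul, algHom_C, aeval_X]
  refine Finset.sum_congr rfl fun k _ => ?_
  simp [mul_comm]

end comp

section generic

variable {K : Type} [Field K]

/-- polynomials whose coefficients are homogeneous of the degree of the first variable -/
noncomputable def H (K : Type) [Field K] (m n : ℕ) :
    Subalgebra K (MvPolynomial (Fin (m + 1)) (MvPolynomial (Fin n) K)) where
  carrier := {p | ∀ α, (coeff α p).IsHomogeneous (α 0)}
  mul_mem' := fun {p q} hp hq α => by
    classical
    rw [coeff_mul]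
    apply IsHomogeneous.sum
    intro x hx
    rw [Finset.HasAntidiagonal.mem_antidiagonal] at hx
    rw [← hx]
    exact (hp _).mul (hq _)
  add_mem' := fun {p q} hp hq α => by
    rw [coeff_add]
    exact (hp α).add (hq α)
  algebraMap_mem' := fun c α => by
    classical
    have h1 : algebraMap K (MvPolynomial (Fin (m + 1)) (MvPolynomial (Fin n) K)) c = C (C c) := rfl
    rw [h1, coeff_C]
    split_ifs with h
    · rw [← h]
      exact isHomogeneous_C _ _
    · exact isHomogeneous_zero _ _ _

/-- the generic point -/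
noncomputable def G {m n : ℕ} (v : Fin m → Fin n → K) (i : Fin n) :
    MvPolynomial (Fin (m + 1)) (MvPolynomial (Fin n) K) :=
  C (X i) * X 0 + ∑ k, algebraMap K _ (v k i) * X (Fin.succ k)

theorem X_succ_mem {m n : ℕ} (k : Fin m) : (X (Fin.succ k) :
    MvPolynomial (Fin (m + 1)) (MvPolynomial (Fin n) K)) ∈ H K m n := by
  classical
  intro α
  rw [MvPolynomial.coeff_X]
  split_ifs with h
  · rw [← h]
    simp only [Finsupp.single_apply, (Fin.succ_ne_zero k), if_false]
    exact isHomogeneous_one _ _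
  · exact isHomogeneous_zero _ _ _

theorem X_zero_mem {m n : ℕ} (i : Fin n) : (C (X i) * X 0 :
    MvPolynomial (Fin (m + 1)) (MvPolynomial (Fin n) K)) ∈ H K m n := by
  classical
  intro α
  rw [coeff_C_mul, MvPolynomial.coeff_X]
  split_ifs with h
  · rw [← h, mul_one]
    simp only [Finsupp.single_apply, if_true]
    exact isHomogeneous_X _ _
  · rw [mul_zero]
    exact isHomogeneous_zero _ _ _

theorem G_mem {m n : ℕ} (v : Fin m → Fin n → K) (i : Fin n) : G v i ∈ H K m n :=
  (H K m n).add_mem (X_zero_mem i) ((H K m n).sum_mem fun k _ =>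
    (H K m n).mul_mem ((H K m n).algebraMap_mem _) (X_succ_mem k))

theorem aeval_G_mem {m n : ℕ} (v : Fin m → Fin n → K) (f : MvPolynomial (Fin n) K) :
    aeval (G v) f ∈ H K m n := by
  induction f using MvPolynomial.induction_on with
  | C a =>
    rw [aeval_C]
    exact (H K m n).algebraMap_mem _
  | add p q hp hq =>
    rw [map_add]
    exact (H K m n).add_mem hp hq
  | mul_X p i hp =>
    rw [map_mul, aeval_X]
    exact (H K m n).mul_mem hp (G_mem v i)

/-- the vectors with the new vector in front -/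
theorem coeff_res_cons {m n : ℕ} (v : Fin m → Fin n → K) (w : Fin n → K)
    (f : MvPolynomial (Fin n) K) (α : Fin (m + 1) →₀ ℕ) :
    coeff α (res (Fin.cons w v : Fin (m + 1) → Fin n → K) f) = eval w (coeff α (aeval (G v) f)) := by
  set ev : MvPolynomial (Fin (m + 1)) (MvPolynomial (Fin n) K) →ₐ[K] MvPolynomial (Fin (m + 1)) K :=
    mapAlgHom (aeval w) with hev
  have h1 : ev (aeval (G v) f) = res (Fin.cons w v : Fin (m + 1) → Fin n → K) f := by
    rw [comp_aeval_apply]
    unfold res
    congr 2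
    funext i
    unfold G
    rw [map_add, map_mul, map_sum, Fin.sum_univ_succ]
    congr 1
    · rw [hev]
      simp [mapAlgHom_apply]
    · refine Finset.sum_congr rfl fun k _ => ?_
      rw [map_mul, AlgHom.commutes, hev]
      simp [mapAlgHom_apply]
  rw [← h1, hev]
  exact (coeff_map ((aeval w : MvPolynomial (Fin n) K →ₐ[K] K) : MvPolynomial (Fin n) K →+* K) _ α).trans
    (congrFun (congrArg DFunLike.coe (coe_aeval_eq_eval w)) _)

/-- the coefficient of degree zero in the first variable -/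
theorem fse_zero {m n : ℕ} (v : Fin m → Fin n → K) (w : Fin n → K) (f : MvPolynomial (Fin n) K) :
    (MvPolynomial.finSuccEquiv K m (res (Fin.cons w v : Fin (m + 1) → Fin n → K) f)).coeff 0 =
      res v f := by
  set ev : MvPolynomial (Fin (m + 1)) K →ₐ[K] MvPolynomial (Fin m) K :=
    ((Polynomial.aeval (0 : MvPolynomial (Fin m) K)).restrictScalars K).comp
      (MvPolynomial.finSuccEquiv K m).toAlgHom with hev
  have h1 : ev (res (Fin.cons w v : Fin (m + 1) → Fin n → K) f) = res v f := by
    unfold res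
    rw [comp_aeval_apply]
    congr 2
    funext i
    rw [map_sum, Fin.sum_univ_succ]
    have e0 : ev (X 0) = 0 := by
      rw [hev]
      simp [finSuccEquiv_X_zero]
    have e1 : ∀ k : Fin m, ev (X (Fin.succ k)) = X k := by
      intro k
      rw [hev]
      simp [finSuccEquiv_X_succ]
    have e2 : ∀ c : K, ev (C c) = C c := fun c => ev.commutes c
    simp only [map_mul, e0, e1, e2, mul_zero, zero_add, Fin.cons_succ]
  rw [← h1, hev]
  simp [Polynomial.coeff_zero_eq_eval_zero]

/-- the step to diagonal forms -/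
theorem diag_step {m n D : ℕ} (hD : 0 < D) (v : Fin m → Fin n → K) (w : Fin n → K)
    (f : MvPolynomial (Fin n) K) (hf : f.IsHomogeneous D)
    (hw : ∀ α : Fin (m + 1) →₀ ℕ, Finsupp.degree α = D → 1 ≤ α 0 → α 0 < D →
      eval w (coeff α (aeval (G v) f)) = 0)
    (c : Fin m → K) (hv : res v f = ∑ k, C (c k) * X k ^ D) :
    ∃ c' : Fin (m + 1) → K, res (Fin.cons w v : Fin (m + 1) → Fin n → K) f =
      ∑ k, C (c' k) * X k ^ D := by
  set P := res (Fin.cons w v : Fin (m + 1) → Fin n → K) f with hP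
  have hPh : P.IsHomogeneous D := res_homog _ hf
  have h0 : (MvPolynomial.finSuccEquiv K m P).coeff 0 = res v f := fse_zero v w f
  set a : K := coeff 0 ((MvPolynomial.finSuccEquiv K m P).coeff D) with ha
  refine ⟨Fin.cons a c, ?_⟩
  apply (MvPolynomial.finSuccEquiv K m).injective
  have h2 : MvPolynomial.finSuccEquiv K m (∑ k, C ((Fin.cons a c : Fin (m + 1) → K) k) * X k ^ D) =
      Polynomial.C (C a) * Polynomial.X ^ D + Polynomial.C (res v f) := by
    rw [Fin.sum_univ_succ, map_add, map_sum, hv, map_sum]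
    congr 1
    · rw [map_mul, map_pow, finSuccEquiv_X_zero, Fin.cons_zero]
      congr 1
      exact (MvPolynomial.finSuccEquiv K m).commutes a
    · refine Finset.sum_congr rfl fun k _ => ?_
      rw [map_mul, map_pow, finSuccEquiv_X_succ, Fin.cons_succ, map_mul, map_pow]
      congr 1
      exact (MvPolynomial.finSuccEquiv K m).commutes (c k)
  rw [h2]
  apply Polynomial.ext
  intro i
  rw [Polynomial.coeff_add, Polynomial.coeff_C_mul, Polynomial.coeff_X_pow, Polynomial.coeff_C]
  rcases Nat.eq_zero_or_pos i with rfl | hi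
  · rw [h0, if_neg (by omega), if_pos rfl, mul_zero, zero_add]
  · rw [if_neg (by omega : ¬ i = 0), add_zero]
    rcases lt_trichotomy i D with h | h | h
    · rw [if_neg (by omega), mul_zero]
      ext β
      rw [finSuccEquiv_coeff_coeff, coeff_zero]
      by_cases hdeg : Finsupp.degree (Finsupp.cons i β) = D
      · rw [hP, coeff_res_cons]
        exact hw _ hdeg (by rw [Finsupp.cons_zero]; exact hi) (by rw [Finsupp.cons_zero]; exact h)
      · exact hPh.coeff_eq_zero hdeg
    · subst h
      rw [if_pos rfl, mul_one]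
      have h3 := hPh.finSuccEquiv_coeff_isHomogeneous i 0 (by omega)
      rw [← totalDegree_zero_iff_isHomogeneous] at h3
      exact totalDegree_eq_zero_iff_eq_C.1 h3
    · rw [if_neg (by omega), mul_zero]
      ext β
      rw [finSuccEquiv_coeff_coeff, coeff_zero]
      apply hPh.coeff_eq_zero
      intro h5
      have h6 : Finsupp.degree (Finsupp.cons i β) = i + Finsupp.degree β := by
        rw [Finsupp.degree_eq_sum, Finsupp.degree_eq_sum, Fin.sum_univ_succ]
        simp
      omega

end generic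

section induct

/-- the statement for degrees at most `D` -/
def PP (ψ : ℕ → ℕ) (D : ℕ) : Prop := ∀ r m : ℕ, ∃ N : ℕ, ∀ (K : Type) [Field K], Diag ψ K →
  ∀ n : ℕ, N ≤ n → ∀ (e : Fin r → ℕ) (f : Fin r → MvPolynomial (Fin n) K),
    (∀ j, 0 < e j) → (∀ j, e j ≤ D) → (∀ j, (f j).IsHomogeneous (e j)) →
    ∃ v : Fin m → Fin n → K, LinearIndependent K v ∧ ∀ j, res v (f j) = 0

theorem PP_fintype {ψ : ℕ → ℕ} {D : ℕ} (hP : PP ψ D) (κ : Type) [Fintype κ] (m : ℕ) :
    ∃ N : ℕ, ∀ (K : Type) [Field K], Diag ψ K →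
      ∀ n : ℕ, N ≤ n → ∀ (e : κ → ℕ) (f : κ → MvPolynomial (Fin n) K),
      (∀ j, 0 < e j) → (∀ j, e j ≤ D) → (∀ j, (f j).IsHomogeneous (e j)) →
      ∃ v : Fin m → Fin n → K, LinearIndependent K v ∧ ∀ j, res v (f j) = 0 := by
  obtain ⟨N, hN⟩ := hP (Fintype.card κ) m
  refine ⟨N, fun K _ hK n hn e f h1 h2 h3 => ?_⟩
  obtain ⟨v, hv, h⟩ := hN K hK n hn (fun j => e ((Fintype.equivFin κ).symm j))
    (fun j => f ((Fintype.equivFin κ).symm j)) (fun _ => h1 _) (fun _ => h2 _) (fun _ => h3 _)
  refine ⟨v, hv, fun j => ?_⟩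
  have := h (Fintype.equivFin κ j)
  rwa [Equiv.symm_apply_apply] at this

/-- diagonal restrictions -/
theorem QQ {ψ : ℕ → ℕ} {D : ℕ} (hD : 0 < D) (hP : PP ψ (D - 1)) (m : ℕ) :
    ∃ N : ℕ, ∀ (K : Type) [Field K], Diag ψ K → ∀ n : ℕ, N ≤ n →
      ∀ f : MvPolynomial (Fin n) K, f.IsHomogeneous D →
      ∃ v : Fin m → Fin n → K, LinearIndependent K v ∧ ∃ c : Fin m → K,
        res v f = ∑ k, C (c k) * X k ^ D := by
  classical
  induction m with
  | zero =>
    refine ⟨0, fun K _ _ n _ f hf => ⟨Fin.elim0, linearIndependent_empty_type, Fin.elim0, ?_⟩⟩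
    rw [Finset.univ_eq_empty, Finset.sum_empty]
    ext β
    rw [coeff_zero]
    apply (res_homog _ hf).coeff_eq_zero
    have : β = 0 := Subsingleton.elim _ _
    rw [this]
    simp
    omega
  | succ m ih =>
    obtain ⟨N1, h1⟩ := ih
    set A : Finset (Fin (m + 1) →₀ ℕ) :=
      ((Finset.univ : Finset (Fin (m + 1))).finsuppAntidiag D).filter (fun α => 1 ≤ α 0 ∧ α 0 < D) with hA
    obtain ⟨N2, h2⟩ := PP_fintype hP {α // α ∈ A} (m + 1)
    refine ⟨max N1 N2, fun K _ hK n hn f hf => ?_⟩
    obtain ⟨v, hv, c, hc⟩ := h1 K hK n ((le_max_left _ _).trans hn) f hf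
    obtain ⟨W, hW, hW0⟩ := h2 K hK n ((le_max_right _ _).trans hn) (fun α => α.1 0)
      (fun α => coeff α.1 (aeval (G v) f))
      (fun α => (Finset.mem_filter.1 α.2).2.1)
      (fun α => by have := (Finset.mem_filter.1 α.2).2.2; omega)
      (fun α => aeval_G_mem v f α.1)
    have hex : ∃ w, w ∈ Submodule.span K (Set.range W) ∧ w ∉ Submodule.span K (Set.range v) := by
      by_contra hcon
      push Not at hcon
      have hle : Submodule.span K (Set.range W) ≤ Submodule.span K (Set.range v) := hcon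
      have h3 := Submodule.finrank_mono hle
      rw [finrank_span_eq_card hW, finrank_span_eq_card hv, Fintype.card_fin, Fintype.card_fin] at h3
      omega
    obtain ⟨w, hwW, hwv⟩ := hex
    obtain ⟨b, hb⟩ := (Submodule.mem_span_range_iff_exists_fun K).1 hwW
    refine ⟨Fin.cons w v, linearIndependent_finCons.2 ⟨hv, hwv⟩, ?_⟩
    apply diag_step hD v w f hf _ c hc
    intro α hα h4 h5
    have hmem : α ∈ A := by
      rw [hA, Finset.mem_filter, Finset.mem_finsuppAntidiag]
      refine ⟨⟨?_, Finset.subset_univ _⟩, h4, h5⟩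
      rw [← hα, Finsupp.degree_eq_sum]
    have h6 := hW0 ⟨α, hmem⟩
    have hw : w = fun i => ∑ k, b k * W k i := by
      rw [← hb]
      funext i
      simp
    rw [hw, eval_comb, h6, map_zero]

/-- one form of degree `D` -/
theorem SS {ψ : ℕ → ℕ} {D : ℕ} (hD : 0 < D) (hP : PP ψ (D - 1)) (m : ℕ) :
    ∃ N : ℕ, ∀ (K : Type) [Field K], Diag ψ K → ∀ n : ℕ, N ≤ n →
      ∀ f : MvPolynomial (Fin n) K, f.IsHomogeneous D →
      ∃ v : Fin m → Fin n → K, LinearIndependent K v ∧ res v f = 0 := by
  classical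
  obtain ⟨N, hN⟩ := QQ hD hP (m * ψ D)
  refine ⟨N, fun K _ hK n hn f hf => ?_⟩
  obtain ⟨v, hv, c, hc⟩ := hN K hK n hn f hf
  have hz : ∀ b : Fin m, ∃ z : Fin (ψ D) → K, z ≠ 0 ∧
      ∑ k, c (finProdFinEquiv (b, k)) * z k ^ D = 0 := fun b => hK D hD (ψ D) le_rfl _
  choose z hz0 hz using hz
  set w : Fin m → Fin (m * ψ D) → K := fun b j =>
    if (finProdFinEquiv.symm j).1 = b then z b (finProdFinEquiv.symm j).2 else 0 with hw
  refine ⟨cmp w v, indep_cmp ?_ hv, ?_⟩
  · rw [Fintype.linearIndependent_iff]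
    intro g hg b
    obtain ⟨k, hk⟩ : ∃ k, z b k ≠ 0 := by
      by_contra hcon
      push Not at hcon
      exact hz0 b (funext hcon)
    have h1 := congrFun hg (finProdFinEquiv (b, k))
    simp only [Finset.sum_apply, Pi.smul_apply, smul_eq_mul, hw, Equiv.symm_apply_apply,
      mul_ite, mul_zero, Pi.zero_apply, Finset.sum_ite_eq, Finset.mem_univ, if_true] at h1
    exact (mul_eq_zero.1 h1).resolve_right hk
  · rw [res_cmp, hc]
    unfold res
    rw [map_sum]
    have h1 : ∀ j : Fin (m * ψ D), aeval (fun i => ∑ k, C (w k i) * X k : Fin (m * ψ D) →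
        MvPolynomial (Fin m) K) (C (c j) * X j ^ D) =
        C (c j) * (C (z (finProdFinEquiv.symm j).1 (finProdFinEquiv.symm j).2) *
          X (finProdFinEquiv.symm j).1) ^ D := by
      intro j
      rw [map_mul, map_pow, aeval_X, algHom_C, algebraMap_eq]
      congr 2
      rw [Finset.sum_eq_single (finProdFinEquiv.symm j).1]
      · simp [hw]
      · intro b _ hb
        simp only [hw]
        rw [if_neg (Ne.symm hb), C_0, zero_mul]
      · intro h; exact absurd (Finset.mem_univ _) h
    rw [Finset.sum_congr rfl fun j _ => h1 j, ← Equiv.sum_comp finProdFinEquiv, Fintype.sum_prod_type]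
    apply Finset.sum_eq_zero
    intro b _
    simp only [Equiv.symm_apply_apply]
    have h2 : ∀ k, (C (c (finProdFinEquiv (b, k))) * (C (z b k) * X b) ^ D : MvPolynomial (Fin m) K) =
        C (c (finProdFinEquiv (b, k)) * z b k ^ D) * X b ^ D := by
      intro k
      rw [C_mul, C_pow]
      ring
    rw [Finset.sum_congr rfl fun k _ => h2 k, ← Finset.sum_mul, ← map_sum, hz b, C_0, zero_mul]

/-- one form of degree at most `D` -/
theorem SS' {ψ : ℕ → ℕ} {D : ℕ} (hD : 0 < D) (hP : PP ψ (D - 1)) (m : ℕ) :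
    ∃ N : ℕ, ∀ (K : Type) [Field K], Diag ψ K → ∀ n : ℕ, N ≤ n →
      ∀ (e : ℕ) (f : MvPolynomial (Fin n) K), 0 < e → e ≤ D → f.IsHomogeneous e →
      ∃ v : Fin m → Fin n → K, LinearIndependent K v ∧ res v f = 0 := by
  obtain ⟨N1, h1⟩ := SS hD hP m
  obtain ⟨N2, h2⟩ := hP 1 m
  refine ⟨max N1 N2, fun K _ hK n hn e f he heD hf => ?_⟩
  rcases eq_or_lt_of_le heD with rfl | hlt
  · exact h1 K hK n ((le_max_left _ _).trans hn) f hf
  · obtain ⟨v, hv, h⟩ := h2 K hK n ((le_max_right _ _).trans hn) (fun _ => e) (fun _ => f)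
      (fun _ => he) (fun _ => by omega) (fun _ => hf)
    exact ⟨v, hv, h 0⟩

theorem basis_exists {K : Type} [Field K] {m n : ℕ} (h : m ≤ n) :
    ∃ v : Fin m → Fin n → K, LinearIndependent K v :=
  ⟨fun k => Pi.single (Fin.castLE h k) 1,
    (Pi.linearIndependent_single_one (Fin n) K).comp _ (Fin.castLE_injective h)⟩

theorem PP_all (ψ : ℕ → ℕ) (D : ℕ) : PP ψ D := by
  induction D with
  | zero =>
    intro r m
    refine ⟨m, fun K _ _ n hn e f h1 h2 _ => ?_⟩
    obtain ⟨v, hv⟩ := basis_exists (K := K) hn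
    refine ⟨v, hv, fun j => ?_⟩
    have := h1 j
    have := h2 j
    omega
  | succ D ih =>
    intro r
    induction r with
    | zero =>
      intro m
      refine ⟨m, fun K _ _ n hn e f _ _ _ => ?_⟩
      obtain ⟨v, hv⟩ := basis_exists (K := K) hn
      exact ⟨v, hv, fun j => j.elim0⟩
    | succ r ihr =>
      intro m
      obtain ⟨M, hM⟩ := SS' (D := D + 1) (Nat.succ_pos D) ih m
      obtain ⟨N, hN⟩ := ihr M
      refine ⟨N, fun K _ hK n hn e f h1 h2 h3 => ?_⟩
      obtain ⟨v, hv, hv0⟩ := hN K hK n hn (fun j => e (Fin.castSucc j)) (fun j => f (Fin.castSucc j))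
        (fun _ => h1 _) (fun _ => h2 _) (fun _ => h3 _)
      obtain ⟨w, hw, hw0⟩ := hM K hK M le_rfl (e (Fin.last r)) (res v (f (Fin.last r)))
        (h1 _) (h2 _) (res_homog _ (h3 _))
      refine ⟨cmp w v, indep_cmp hw hv, fun j => ?_⟩
      rw [res_cmp]
      refine Fin.lastCases ?_ (fun i => ?_) j
      · exact hw0
      · rw [hv0 i]
        exact map_zero _

theorem bra : S_BRA := fun ψ D r m => PP_all ψ D r m

end induct

end Pool.Agent.Q199.TL
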